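import Pool.Agent.J4H20.LV.Stm
import Pool.Agent.J4H20.LV.Hpol
import Pool.Agent.J4H20.TQ.LIM

/-!
# Project LV of helper20: (SHC), a shape without real points for even `m` and odd `e`, `j`
-/

set_option autoImplicit false

namespace Pool.Agent.J4H3.LV

open Polynomial Filter Topology Pool.Agent.J4H20.LV Pool.Agent.J4H21.TP Pool.Agent.J4H20.TQ

lemma deg_aux (m e j : ℕ) (hm : 1 ≤ m) (G H R : ℝ[X]) (s : ℝ) (hs : s ≠ 0) (hje : j < e)
    (hG : G.Monic) (hGn : G.natDegree = e) (hH : H.Monic) (hHn : H.natDegree = j)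
    (hR : R.degree < ((m - 1) * e : ℕ)) :
    (G + C s * H) ^ m - (G ^ m + R) ≠ 0 ∧
      ((G + C s * H) ^ m - (G ^ m + R)).natDegree = (m - 1) * e + j := by
  have hd : (C s * H).degree < G.degree := by
    rw [degree_eq_natDegree hG.ne_zero, hGn]
    rw [degree_C_mul hs, degree_eq_natDegree hH.ne_zero, hHn]
    exact_mod_cast hje
  have hK : (G + C s * H).Monic := hG.add_of_left hd
  have hKn : (G + C s * H).natDegree = e := by
    rw [natDegree_add_eq_left_of_degree_lt hd, hGn]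
  have h0 : (0 : ℝ[X]).degree < ((m - 1) * e : ℕ) := by
    rw [degree_zero]; exact WithBot.bot_lt_coe _
  obtain ⟨hTm, hTn⟩ := mon_aux m e hm G (G + C s * H) 0 hG hGn hK hKn 1 h0
  set T : ℝ[X] := C (1 / (m : ℝ)) * (∑ i ∈ Finset.range m, (G + C s * H) ^ i * G ^ (m - 1 - i)) -
    C 1 * 0 with hT
  have hm0 : (m : ℝ) ≠ 0 := by
    have : 0 < m := hm
    exact_mod_cast this.ne'
  have h1 : (G + C s * H) ^ m - G ^ m = C (s * m) * (H * T) := by
    have h2 := (Commute.all (G + C s * H) G).mul_geom_sum₂ m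
    rw [add_sub_cancel_left] at h2
    rw [← h2, hT, mul_zero, sub_zero]
    have h3 : C (s * m) * C (1 / (m : ℝ)) = C s := by
      rw [← C_mul]; congr 1; field_simp
    linear_combination (-(H * ∑ i ∈ Finset.range m, (G + C s * H) ^ i * G ^ (m - 1 - i))) * h3
  have hHT : (H * T).Monic := hH.mul hTm
  have hsm : s * m ≠ 0 := mul_ne_zero hs hm0
  have hdeg : (C (s * m) * (H * T)).degree = (((m - 1) * e + j : ℕ) : WithBot ℕ) := by
    rw [degree_C_mul hsm, degree_eq_natDegree hHT.ne_zero, hH.natDegree_mul hTm, hHn, hTn, add_comm]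
  have h4 : (G + C s * H) ^ m - (G ^ m + R) = C (s * m) * (H * T) - R := by
    rw [← h1]; ring
  have h5 : (C (s * m) * (H * T) - R).degree = (((m - 1) * e + j : ℕ) : WithBot ℕ) := by
    rw [degree_sub_eq_left_of_degree_lt, hdeg]
    rw [hdeg]
    refine hR.trans_le ?_
    exact_mod_cast Nat.le_add_right _ _
  rw [h4]
  constructor
  · intro h
    rw [h, degree_zero] at h5
    exact absurd h5 (WithBot.bot_ne_coe)
  · exact natDegree_eq_of_degree_eq_some h5

/-- the complex zeros, if they are simple -/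
lemma zeros_aux (Q : ℝ[X]) (n : ℕ) (hQ : Q ≠ 0) (hn : Q.natDegree = n)
    (hs : ∀ z : ℂ, aeval z Q = 0 → aeval z (derivative Q) ≠ 0) :
    ∃ z : Fin n → ℂ, Function.Injective z ∧ ∀ i, aeval (z i) Q = 0 := by
  classical
  set q : ℂ[X] := Q.map (algebraMap ℝ ℂ) with hq
  have hq0 : q ≠ 0 := (Polynomial.map_ne_zero_iff (algebraMap ℝ ℂ).injective).2 hQ
  have hcard : q.roots.card = n := by
    have h1 := (IsAlgClosed.splits q).natDegree_eq_card_roots
    rw [← h1, hq, natDegree_map, hn]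
  have hev : ∀ z : ℂ, q.eval z = aeval z Q := fun z => by rw [hq, eval_map_algebraMap]
  have hev' : ∀ z : ℂ, (derivative q).eval z = aeval z (derivative Q) := fun z => by
    rw [hq, derivative_map, eval_map_algebraMap]
  have hnd : q.roots.Nodup := by
    rw [Multiset.nodup_iff_count_le_one]
    intro z
    rw [count_roots]
    by_contra h
    push Not at h
    obtain ⟨h1, h2⟩ := (one_lt_rootMultiplicity_iff_isRoot hq0).1 h
    rw [IsRoot.def, hev] at h1
    rw [IsRoot.def, hev'] at h2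
    exact hs z h1 h2
  have hcard' : q.roots.toFinset.card = n := by
    rw [Multiset.toFinset_card_of_nodup hnd, hcard]
  set E := q.roots.toFinset.equivFinOfCardEq hcard' with hE
  refine ⟨fun i => (E.symm i : ℂ), ?_, fun i => ?_⟩
  · intro i i' h
    exact E.symm.injective (Subtype.ext h)
  · have h1 := (E.symm i).2
    rw [Multiset.mem_toFinset, mem_roots hq0, IsRoot.def, hev] at h1
    exact h1

lemma fin_pow (m : ℕ) (hm : 0 < m) (c : ℂ) : {u : ℂ | u ^ m = c}.Finite := by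
  have h1 := Polynomial.finite_setOfPred_isRoot (p := (X ^ m - C c : ℂ[X])) (X_pow_sub_C_ne_zero hm c)
  refine h1.subset fun u hu => ?_
  simp only [Set.mem_ofPred_eq] at hu ⊢
  rw [IsRoot.def, eval_sub, eval_pow, eval_X, eval_C, hu, sub_self]

lemma fin_lin (m : ℕ) (hm : 0 < m) (a b c : ℂ) (hb : b ≠ 0) :
    {s : ℝ | (a + s * b) ^ m = c}.Finite := by
  refine Set.Finite.preimage (f := fun s : ℝ => a + s * b) (s := {u : ℂ | u ^ m = c}) ?_ (fin_pow m hm c)
  intro s _ s' _ h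
  simp only [add_right_inj] at h
  have h2 := mul_right_cancel₀ hb h
  exact_mod_cast h2

lemma fin_root (W : ℝ[X]) (hW : W ≠ 0) : {z : ℂ | aeval z W = 0}.Finite := by
  have hq0 : W.map (algebraMap ℝ ℂ) ≠ 0 := (Polynomial.map_ne_zero_iff (algebraMap ℝ ℂ).injective).2 hW
  have h1 := Polynomial.finite_setOfPred_isRoot hq0
  refine h1.subset fun u hu => ?_
  simp only [Set.mem_ofPred_eq] at hu ⊢
  rw [IsRoot.def, eval_map_algebraMap]
  exact hu

/-- for all but finitely many `s` the zeros of `(A + s H) ^ m - A ^ m` are simple -/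
lemma simple1 (m : ℕ) (hm : 2 ≤ m) (A H : ℝ[X]) (hcop : ∀ z : ℂ, aeval z A = 0 → aeval z H ≠ 0)
    (hHs : ∀ z : ℂ, aeval z H = 0 → aeval z (derivative H) ≠ 0)
    (hW : A * derivative H - derivative A * H ≠ 0) :
    {s : ℝ | s ≠ 0 ∧ ∃ z : ℂ, aeval z ((A + C s * H) ^ m - A ^ m) = 0 ∧
      aeval z (derivative ((A + C s * H) ^ m - A ^ m)) = 0}.Finite := by
  have h1 : (⋃ z ∈ {z : ℂ | aeval z (A * derivative H - derivative A * H) = 0},
      {s : ℝ | aeval z H ≠ 0 ∧ (aeval z A + s * aeval z H) ^ m = aeval z A ^ m}).Finite := by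
    refine (fin_root _ hW).biUnion fun z _ => ?_
    by_cases hz : aeval z H = 0
    · simp [hz]
    · refine (fin_lin m (by omega) (aeval z A) (aeval z H) (aeval z A ^ m) hz).subset fun s hs => hs.2
  refine h1.subset ?_
  rintro s ⟨hs0, z, hz1, hz2⟩
  have hsC : (s : ℂ) ≠ 0 := by exact_mod_cast hs0
  simp only [map_sub, map_pow, map_add, map_mul, aeval_C, derivative_sub, derivative_pow,
    derivative_add, derivative_C_mul, Complex.coe_algebraMap, map_natCast] at hz1 hz2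
  set a := aeval z A with ha
  set b := aeval z H with hb
  set a' := aeval z (derivative A) with ha'
  set b' := aeval z (derivative H) with hb'
  have hm0 : (m : ℂ) ≠ 0 := by
    have : 0 < m := by omega
    exact_mod_cast this.ne'
  obtain ⟨n, rfl⟩ : ∃ n, m = n + 1 := ⟨m - 1, by omega⟩
  rw [Nat.add_sub_cancel] at hz2
  have e1 : (a + s * b) ^ (n + 1) = a ^ (n + 1) := sub_eq_zero.1 hz1
  have e2 : (a + s * b) ^ n * (a' + s * b') = a ^ n * a' := by
    have : ((n + 1 : ℕ) : ℂ) * ((a + s * b) ^ n * (a' + s * b') - a ^ n * a') = 0 := by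
      linear_combination hz2
    exact sub_eq_zero.1 ((mul_eq_zero.1 this).resolve_left hm0)
  have hbne : b ≠ 0 := by
    intro hb0
    have ha0 : a ≠ 0 := fun h => hcop z h hb0
    have hb'0 : b' ≠ 0 := hHs z hb0
    rw [hb0, mul_zero, add_zero, mul_add] at e2
    have h3 : a ^ n * (s * b') = 0 := by linear_combination e2
    exact (mul_ne_zero (pow_ne_zero _ ha0) (mul_ne_zero hsC hb'0)) h3
  have hane : a ≠ 0 := by
    intro ha0
    rw [ha0, zero_add, zero_pow (Nat.succ_ne_zero n)] at e1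
    exact (pow_ne_zero _ (mul_ne_zero hsC hbne)) e1
  have e3 : a ^ n * (s * (a * b' - a' * b)) = 0 := by
    linear_combination (a + s * b) * e2 - (a' + s * b') * e1
  have e4 : a * b' - a' * b = 0 := by
    rcases mul_eq_zero.1 e3 with h | h
    · exact absurd h (pow_ne_zero _ hane)
    · exact (mul_eq_zero.1 h).resolve_left hsC
  refine Set.mem_biUnion (x := z) ?_ ⟨hbne, e1⟩
  simp only [Set.mem_ofPred_eq, map_sub, map_mul]
  exact e4

/-- for all but finitely many `s` the zeros of `((B + s c) X) ^ m - B ^ m P` are simple -/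
lemma simple2 (m : ℕ) (hm : 1 ≤ m) (P : ℝ[X]) (B c : ℝ) (hB : B ≠ 0) (hc : c ≠ 0) (hP : P.eval 0 ≠ 0) :
    {s : ℝ | ∃ z : ℂ, aeval z ((C (B + s * c) * X) ^ m - C B ^ m * P) = 0 ∧
      aeval z (derivative ((C (B + s * c) * X) ^ m - C B ^ m * P)) = 0}.Finite := by
  have hm0 : (m : ℝ) ≠ 0 := by
    have : 0 < m := by omega
    exact_mod_cast this.ne'
  have hV : C (m : ℝ) * P - X * derivative P ≠ 0 := by
    intro h
    have h1 := congrArg (eval 0) h
    simp only [eval_sub, eval_mul, eval_C, eval_X, zero_mul, sub_zero, eval_zero] at h1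
    exact (mul_ne_zero hm0 hP) h1
  have hP0 : aeval (0 : ℂ) P ≠ 0 := by
    have h1 : aeval (0 : ℂ) P = ((P.eval 0 : ℝ) : ℂ) := by
      have h2 := aeval_algebraMap_apply_eq_algebraMap_eval (A := ℂ) (0 : ℝ) P
      simpa using h2
    rw [h1]
    exact_mod_cast hP
  have h1 : (⋃ z ∈ {z : ℂ | aeval z (C (m : ℝ) * P - X * derivative P) = 0},
      {s : ℝ | z ≠ 0 ∧ ((B : ℂ) * z + s * (c * z)) ^ m = (B : ℂ) ^ m * aeval z P}).Finite := by
    refine (fin_root _ hV).biUnion fun z _ => ?_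
    by_cases hz : z = 0
    · simp [hz]
    · refine (fin_lin m (by omega) ((B : ℂ) * z) (c * z) _ (mul_ne_zero (by exact_mod_cast hc) hz)).subset
        fun s hs => hs.2
  refine h1.subset ?_
  rintro s ⟨z, hz1, hz2⟩
  simp only [map_sub, map_pow, map_mul, aeval_C, aeval_X, derivative_sub, derivative_pow,
    derivative_mul, derivative_C, derivative_X, Complex.coe_algebraMap, zero_mul, zero_add, mul_one,
    mul_zero, map_add, map_natCast, Complex.ofReal_add, Complex.ofReal_mul] at hz1 hz2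
  obtain ⟨n, rfl⟩ : ∃ n, m = n + 1 := ⟨m - 1, by omega⟩
  rw [Nat.add_sub_cancel] at hz2
  set p := aeval z P with hp
  set p' := aeval z (derivative P) with hp'
  have hBC : (B : ℂ) ≠ 0 := by exact_mod_cast hB
  have e1 : (((B : ℂ) + s * c) * z) ^ (n + 1) = (B : ℂ) ^ (n + 1) * p := by linear_combination hz1
  have hz0 : z ≠ 0 := by
    intro h
    rw [h, mul_zero, zero_pow (Nat.succ_ne_zero n)] at e1
    have h2 : (B : ℂ) ^ (n + 1) * p ≠ 0 := by
      refine mul_ne_zero (pow_ne_zero _ hBC) ?_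
      rw [hp, h]
      exact hP0
    exact h2 e1.symm
  refine Set.mem_biUnion (x := z) ?_ ⟨hz0, by rw [← e1]; ring⟩
  simp only [Set.mem_ofPred_eq, map_sub, map_mul, aeval_C, aeval_X, Complex.coe_algebraMap]
  have h3 : (B : ℂ) ^ (n + 1) * ((((n + 1 : ℕ) : ℝ) : ℂ) * p - z * p') = 0 := by
    push_cast
    push_cast at hz2
    linear_combination (-((n : ℂ) + 1)) * hz1 + z * hz2
  exact (mul_eq_zero.1 h3).resolve_left (pow_ne_zero _ hBC)


lemma A1_lower (n : ℕ) (hn : Even n) (x : ℝ) : -(n : ℝ) ^ n ≤ ∏ l : Fin n, (x - (((l : ℕ) : ℝ) + 1)) := by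
  have hn0 : (0 : ℝ) ≤ (n : ℝ) ^ n := by positivity
  by_cases h1 : x ≤ 0
  · have h2 : ∏ l : Fin n, (x - (((l : ℕ) : ℝ) + 1)) = ∏ l : Fin n, ((((l : ℕ) : ℝ) + 1) - x) := by
      have h3 : ∀ l : Fin n, (x - (((l : ℕ) : ℝ) + 1)) = (-1) * ((((l : ℕ) : ℝ) + 1) - x) := fun l => by ring
      rw [Finset.prod_congr rfl (fun l _ => h3 l), Finset.prod_mul_distrib, Finset.prod_const,
        Finset.card_univ, Fintype.card_fin, hn.neg_one_pow, one_mul]
    rw [h2]
    have h4 : 0 ≤ ∏ l : Fin n, ((((l : ℕ) : ℝ) + 1) - x) := Finset.prod_nonneg fun l _ => by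
      have : (0 : ℝ) ≤ ((l : ℕ) : ℝ) := Nat.cast_nonneg _
      linarith
    linarith
  · by_cases h2 : (n : ℝ) ≤ x
    · have h4 : 0 ≤ ∏ l : Fin n, (x - (((l : ℕ) : ℝ) + 1)) := Finset.prod_nonneg fun l _ => by
        have : ((l : ℕ) : ℝ) + 1 ≤ n := by exact_mod_cast l.2
        linarith
      linarith
    · push Not at h1 h2
      have h3 : |∏ l : Fin n, (x - (((l : ℕ) : ℝ) + 1))| ≤ (n : ℝ) ^ n := by
        rw [Finset.abs_prod]
        calc ∏ l : Fin n, |x - (((l : ℕ) : ℝ) + 1)| ≤ ∏ l : Fin n, (n : ℝ) := by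
              refine Finset.prod_le_prod (fun l _ => abs_nonneg _) fun l _ => ?_
              have h5 : ((l : ℕ) : ℝ) + 1 ≤ n := by exact_mod_cast l.2
              have h6 : (0 : ℝ) ≤ ((l : ℕ) : ℝ) := Nat.cast_nonneg _
              rw [abs_le]
              constructor <;> linarith
          _ = (n : ℝ) ^ n := by simp
      have := neg_abs_le (∏ l : Fin n, (x - (((l : ℕ) : ℝ) + 1)))
      linarith

lemma noreal1 (m : ℕ) (hm : Even m) (hm0 : m ≠ 0) (a h s K : ℝ) (hK : -K ≤ a) (hh : 1 ≤ h)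
    (hs0 : 0 < s) (hs : 2 * K < s) : (a + s * h) ^ m - a ^ m ≠ 0 := by
  have h1 : s ≤ s * h := le_mul_of_one_le_right hs0.le hh
  have h2 : |a| < a + s * h := by
    rw [abs_lt]
    constructor <;> linarith
  have h3 : |a| ^ m < (a + s * h) ^ m := pow_lt_pow_left₀ h2 (abs_nonneg _) hm0
  rw [hm.pow_abs] at h3
  exact (sub_pos.2 h3).ne'

lemma noreal2 (m : ℕ) (hm : Even m) (hm0 : m ≠ 0) (α : Fin m → ℝ) (B c : ℝ) (hB : 0 < B) (hc : 0 < c)
    (h0 : ∏ i, (0 - α i) < 0) :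
    ∀ᶠ s in atTop, ∀ y : ℝ, ((B + s * c) * y) ^ m - B ^ m * ∏ i, (y - α i) ≠ 0 := by
  have hcont : Continuous fun y : ℝ => ∏ i, (y - α i) :=
    continuous_finsetProd _ fun i _ => continuous_id.sub continuous_const
  have h1 : ∀ᶠ y in 𝓝 (0 : ℝ), ∏ i, (y - α i) < 0 := (hcont.tendsto 0).eventually_lt_const h0
  obtain ⟨δ, hδ, h2⟩ := Metric.eventually_nhds_iff.1 h1
  set M : ℝ := ∑ i, |α i| with hM
  have hMi : ∀ i, |α i| ≤ M := fun i =>
    Finset.single_le_sum (f := fun i => |α i|) (fun i _ => abs_nonneg _) (Finset.mem_univ i)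
  have hM0 : 0 ≤ M := Finset.sum_nonneg fun i _ => abs_nonneg _
  filter_upwards [eventually_gt_atTop (B * (M / δ) / c), eventually_ge_atTop 0] with s hs hs0 y
  have hs1 : B * (1 + M / δ) < B + s * c := by
    rw [div_lt_iff₀ hc] at hs
    linarith
  have hsp : 0 < B + s * c := by positivity
  by_cases hy : |y| < δ
  · have h3 := h2 (y := y) (by rwa [dist_zero_right, Real.norm_eq_abs])
    have h4 : 0 ≤ ((B + s * c) * y) ^ m := hm.pow_nonneg _
    have h5 : B ^ m * ∏ i, (y - α i) < 0 := mul_neg_of_pos_of_neg (pow_pos hB m) h3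
    intro h
    linarith
  · push Not at hy
    have hy0 : 0 < |y| := hδ.trans_le hy
    have h3 : |∏ i, (y - α i)| ≤ ((1 + M / δ) * |y|) ^ m := by
      rw [Finset.abs_prod]
      calc ∏ i, |y - α i| ≤ ∏ i : Fin m, ((1 + M / δ) * |y|) := by
            refine Finset.prod_le_prod (fun l _ => abs_nonneg _) fun i _ => ?_
            have h4 : |y - α i| ≤ |y| + |α i| := abs_sub y (α i)
            have h5 : M ≤ M / δ * |y| := by
              rw [div_mul_eq_mul_div, le_div_iff₀ hδ]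
              exact mul_le_mul_of_nonneg_left hy hM0
            have := hMi i
            rw [add_mul, one_mul]
            linarith
        _ = ((1 + M / δ) * |y|) ^ m := by simp
    have h4 : (B * ((1 + M / δ) * |y|)) ^ m < ((B + s * c) * |y|) ^ m := by
      refine pow_lt_pow_left₀ ?_ (by positivity) hm0
      rw [← mul_assoc]
      exact mul_lt_mul_of_pos_right hs1 hy0
    have h5 : ((B + s * c) * y) ^ m = ((B + s * c) * |y|) ^ m := by
      rw [mul_pow, mul_pow, hm.pow_abs]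
    have h6 : B ^ m * ∏ i, (y - α i) ≤ (B * ((1 + M / δ) * |y|)) ^ m := by
      rw [mul_pow B]
      exact mul_le_mul_of_nonneg_left ((le_abs_self _).trans h3) (pow_nonneg hB.le m)
    rw [h5]
    exact (sub_pos.2 (h6.trans_lt h4)).ne'

/-- different numbers with sum 0, exactly one positive, none 0 -/
noncomputable def al (n : ℕ) : Fin (n + 1) → ℚ :=
  Fin.cons (∑ i : Fin n, (((i : ℕ) : ℚ) + 1)) fun i => -(((i : ℕ) : ℚ) + 1)

lemma al_sum (n : ℕ) : ∑ i, al n i = 0 := by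
  rw [Fin.sum_univ_succ]
  simp only [al, Fin.cons_zero, Fin.cons_succ]
  rw [Finset.sum_neg_distrib]
  ring

lemma al_inj (n : ℕ) : Function.Injective (al n) := by
  rw [al, Fin.cons_injective_iff]
  constructor
  · rintro ⟨i, hi⟩
    have h1 : 0 ≤ ∑ i : Fin n, (((i : ℕ) : ℚ) + 1) := Finset.sum_nonneg fun i _ => by positivity
    rw [← hi] at h1
    have h2 : (0 : ℚ) ≤ ((i : ℕ) : ℚ) := Nat.cast_nonneg _
    linarith
  · intro i i' h
    simp only [neg_inj, add_left_inj, Nat.cast_inj] at h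
    exact Fin.ext h

lemma al_prod (n : ℕ) (hn : 1 ≤ n) : ∏ i, (0 - (al n i : ℝ)) < 0 := by
  rw [Fin.prod_univ_succ]
  simp only [al, Fin.cons_zero, Fin.cons_succ]
  refine mul_neg_of_neg_of_pos ?_ (Finset.prod_pos fun i _ => ?_)
  · rw [zero_sub, neg_lt_zero]
    push_cast
    have : Nonempty (Fin n) := ⟨⟨0, hn⟩⟩
    exact Finset.sum_pos (fun i _ => by positivity) Finset.univ_nonempty
  · push_cast
    have h2 : (0 : ℝ) ≤ ((i : ℕ) : ℝ) := Nat.cast_nonneg _
    linarith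

lemma CT_comp (h : ℝ[X]) {L : ℕ → ℝ[X]} {P : ℝ[X]} (hL : CT L P) :
    CT (fun k => h.comp (L k)) (h.comp P) := by
  have h1 : ∀ q : ℝ[X], h.comp q = ∑ i ∈ Finset.range (h.natDegree + 1), C (h.coeff i) * q ^ i := by
    intro q
    rw [comp, eval₂_eq_sum_range]
  simp only [h1]
  exact CT.sum _ fun i _ => (CT.const _).mul (hL.pow i)

/-- the limit away from 0 -/
lemma lim1 {m e : ℕ} (a : Fin e → ℝ) (α : Fin m × Fin e → ℝ) (ε : ℕ → ℝ) (hε : Tendsto ε atTop (𝓝 0))
    (U : ℕ → ℝ[X]) (P : ℝ[X]) (hU : CT U P) (H : ℝ[X]) :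
    CT (fun k => (∏ l, (X - C (a l)) + C (ε k ^ 2) * U k + H) ^ m -
      ∏ i : Fin m × Fin e, (X - C (a i.2 + ε k * α i)))
      ((∏ l, (X - C (a l)) + H) ^ m - (∏ l, (X - C (a l))) ^ m) := by
  have h1 : CT (fun k => ∏ l, (X - C (a l)) + C (ε k ^ 2) * U k + H) (∏ l, (X - C (a l)) + H) := by
    have h2 := ((CT.const (∏ l, (X - C (a l)))).add ((CT.cc (hε.pow 2)).mul hU)).add (CT.const H)
    rw [zero_pow two_ne_zero, C_0, zero_mul, add_zero] at h2
    exact h2
  have h3 : CT (fun k => ∏ i : Fin m × Fin e, (X - C (a i.2 + ε k * α i)))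
      ((∏ l, (X - C (a l))) ^ m) := by
    have h4 := CT.prod Finset.univ (Q := fun (i : Fin m × Fin e) k => X - C (a i.2 + ε k * α i))
      (P := fun i => X - C (a i.2 + 0 * α i)) fun i _ =>
        (CT.const X).sub (CT.cc (tendsto_const_nhds.add (hε.mul_const _)))
    have h5 : ∏ i : Fin m × Fin e, (X - C (a i.2 + 0 * α i)) = (∏ l, (X - C (a l))) ^ m := by
      rw [Fintype.prod_prod_type]
      simp only [zero_mul, add_zero, Finset.prod_const, Finset.card_univ, Fintype.card_fin]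
    rw [h5] at h4
    exact h4
  exact (h1.pow m).sub h3

/-- the limit near 0 -/
lemma lim2 {m n : ℕ} (α : Fin m × Fin (n + 1) → ℝ) (E : ℕ → ℝ) (hE0 : ∀ k, E k ≠ 0)
    (hEl : Tendsto E atTop (𝓝 0)) (c : Fin (n + 1) → ℕ → ℝ) (x : Fin (n + 1) → ℝ)
    (hc : ∀ l, Tendsto (c l) atTop (𝓝 (x l))) (h : ℝ[X]) (s B : ℝ)
    (hB : B = ∏ l : Fin n, (-(((l : ℕ) : ℝ) + 1))) (d : ℕ) :
    Tendsto (fun k => ((E k) ^ m)⁻¹ *
      (((∏ l : Fin (n + 1), (X - C (((l : ℕ) : ℝ))) + C (E k ^ 2) *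
          (∑ l : Fin (n + 1), C (c l k) * X ^ (l : ℕ)) + C s * (X * h)) ^ m -
        ∏ i : Fin m × Fin (n + 1), (X - C (((i.2 : ℕ) : ℝ) + E k * α i))).comp
          (C 0 + C (E k) * X)).coeff d) atTop
      (𝓝 (((C (B + s * h.eval 0) * X) ^ m - C B ^ m * ∏ i, (X - C (α (i, 0))) : ℝ[X]).coeff d)) := by
  set L : ℕ → ℝ[X] := fun k => C 0 + C (E k) * X with hL
  set W : ℕ → ℝ[X] := fun k => ∏ l : Fin n, (L k - C (((l : ℕ) : ℝ) + 1)) with hW
  set V : ℕ → ℝ[X] := fun k => ∏ i : Fin m, ∏ l : Fin n,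
    (L k - C (((l : ℕ) : ℝ) + 1 + E k * α (i, l.succ))) with hV
  set H : ℕ → ℝ[X] := fun k => ∑ l : Fin (n + 1), C (c l k) * L k ^ (l : ℕ) with hH
  have cL : CT L (C 0) := by
    have h1 := (CT.const (C 0)).add ((CT.cc hEl).mul (CT.const X))
    rw [C_0, zero_mul, add_zero] at h1
    simpa only [hL, C_0] using h1
  have cW : CT W (C B) := by
    have h1 := CT.prod (Finset.univ : Finset (Fin n)) (Q := fun l k => L k - C (((l : ℕ) : ℝ) + 1))
      (P := fun l => C 0 - C (((l : ℕ) : ℝ) + 1)) fun l _ => cL.sub (CT.const _)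
    have h2 : ∏ l : Fin n, (C 0 - C (((l : ℕ) : ℝ) + 1)) = (C B : ℝ[X]) := by
      rw [hB, map_prod]
      exact Finset.prod_congr rfl fun l _ => by rw [C_0, zero_sub, C_neg]
    rw [h2] at h1
    exact h1
  have cV : CT V (C B ^ m) := by
    have h1 := CT.prod Finset.univ (Q := fun (i : Fin m) k => ∏ l : Fin n,
      (L k - C (((l : ℕ) : ℝ) + 1 + E k * α (i, l.succ))))
      (P := fun i => ∏ l : Fin n, (C 0 - C (((l : ℕ) : ℝ) + 1 + 0 * α (i, l.succ))))
      fun i _ => CT.prod _ fun l _ => cL.sub (CT.cc (tendsto_const_nhds.add (hEl.mul_const _)))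
    have h2 : ∀ i : Fin m, ∏ l : Fin n,
        (C 0 - C (((l : ℕ) : ℝ) + 1 + 0 * α (i, l.succ))) = (C B : ℝ[X]) := by
      intro i
      rw [hB, map_prod]
      exact Finset.prod_congr rfl fun l _ => by rw [zero_mul, add_zero, C_0, zero_sub, C_neg]
    simp only [h2, Finset.prod_const, Finset.card_univ, Fintype.card_fin] at h1
    exact h1
  have cH : CT H (∑ l : Fin (n + 1), C (x l) * C 0 ^ (l : ℕ)) :=
    CT.sum _ fun l _ => (CT.cc (hc l)).mul (cL.pow _)
  have chL : CT (fun k => h.comp (L k)) (C (h.eval 0)) := by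
    have h1 := CT_comp h cL
    rw [comp_C] at h1
    exact h1
  have key : ∀ k, ((∏ l : Fin (n + 1), (X - C (((l : ℕ) : ℝ))) + C (E k ^ 2) *
          (∑ l : Fin (n + 1), C (c l k) * X ^ (l : ℕ)) + C s * (X * h)) ^ m -
        ∏ i : Fin m × Fin (n + 1), (X - C (((i.2 : ℕ) : ℝ) + E k * α i))).comp (L k) =
      C (E k ^ m) * ((X * W k + C (E k) * H k + C s * (X * h.comp (L k))) ^ m -
        (∏ i, (X - C (α (i, 0)))) * V k) := by
    intro k
    have hLX : L k = C (E k) * X := by simp only [hL, C_0, zero_add]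
    have h1 : ∏ l : Fin (n + 1), (L k - C (((l : ℕ) : ℝ))) = C (E k) * X * W k := by
      rw [Fin.prod_univ_succ]
      simp only [hW, Fin.val_zero, Nat.cast_zero, C_0, sub_zero, Fin.val_succ, Nat.cast_add,
        Nat.cast_one]
      rw [hLX]
    have h2 : ∏ i : Fin m × Fin (n + 1), (L k - C (((i.2 : ℕ) : ℝ) + E k * α i)) =
        C (E k ^ m) * ((∏ i, (X - C (α (i, 0)))) * V k) := by
      rw [Fintype.prod_prod_type]
      have h3 : ∀ i : Fin m, ∏ l : Fin (n + 1), (L k - C (((l : ℕ) : ℝ) + E k * α (i, l))) =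
          C (E k) * ((X - C (α (i, 0))) * ∏ l : Fin n,
            (L k - C (((l : ℕ) : ℝ) + 1 + E k * α (i, l.succ)))) := by
        intro i
        rw [Fin.prod_univ_succ, ← mul_assoc]
        simp only [Fin.val_zero, Nat.cast_zero, zero_add, Fin.val_succ, Nat.cast_add,
          Nat.cast_one]
        congr 1
        rw [hLX, C_mul]
        ring
      simp only [h3]
      rw [Finset.prod_mul_distrib, Finset.prod_mul_distrib, Finset.prod_const, Finset.card_univ,
        Fintype.card_fin, C_pow]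
    have h4 : (∑ l : Fin (n + 1), C (c l k) * X ^ (l : ℕ) : ℝ[X]).comp (L k) = H k := by
      simp only [hH]
      rw [Polynomial.sum_comp]
      simp
    rw [sub_comp, pow_comp, add_comp, add_comp, mul_comp, mul_comp, mul_comp, prod_comp, prod_comp, h4]
    simp only [sub_comp, X_comp, C_comp]
    rw [h1, h2, mul_sub]
    congr 1
    have h6 : C (E k) * X * W k + C (E k ^ 2) * H k + C s * (L k * h.comp (L k)) =
        C (E k) * (X * W k + C (E k) * H k + C s * (X * h.comp (L k))) := by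
      rw [C_pow, hLX]
      ring
    rw [h6, mul_pow, C_pow]
  have cAll : CT (fun k => (X * W k + C (E k) * H k + C s * (X * h.comp (L k))) ^ m -
        (∏ i, (X - C (α (i, 0)))) * V k)
      ((C (B + s * h.eval 0) * X) ^ m - C B ^ m * ∏ i, (X - C (α (i, 0)))) := by
    have h1 := (((((CT.const X).mul cW).add ((CT.cc hEl).mul cH)).add
      ((CT.const (C s)).mul ((CT.const X).mul chL))).pow m).sub
      ((CT.const (∏ i, (X - C (α (i, 0))))).mul cV)
    have h2 : X * C B + C 0 * ∑ l : Fin (n + 1), C (x l) * C 0 ^ (l : ℕ) +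
        C s * (X * C (eval 0 h)) = C (B + s * h.eval 0) * X := by
      rw [C_add, C_mul, C_0]
      ring
    rw [h2, mul_comm (∏ i, (X - C (α (i, 0))))] at h1
    exact h1
  refine (cAll d).congr fun k => ?_
  rw [key k, coeff_C_mul, inv_mul_cancel_left₀ (pow_ne_zero _ (hE0 k))]

lemma even_int {n : ℕ} (hn : Even n) : ∏ l : Fin n, (-(((l : ℕ) : ℝ) + 1)) = ∏ l : Fin n, (((l : ℕ) : ℝ) + 1) := by
  have h3 : ∀ l : Fin n, (-(((l : ℕ) : ℝ) + 1)) = (-1) * (((l : ℕ) : ℝ) + 1) := fun l => by ring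
  rw [Finset.prod_congr rfl (fun l _ => h3 l), Finset.prod_mul_distrib, Finset.prod_const,
    Finset.card_univ, Fintype.card_fin, hn.neg_one_pow, one_mul]

/-- degree of the second limit -/
lemma deg2 (m : ℕ) (α : Fin m → ℝ) (μ B : ℝ) (h : μ ^ m - B ^ m ≠ 0) :
    ((C μ * X) ^ m - C B ^ m * ∏ i, (X - C (α i)) : ℝ[X]) ≠ 0 ∧
      ((C μ * X) ^ m - C B ^ m * ∏ i, (X - C (α i)) : ℝ[X]).natDegree = m := by
  have hP : (∏ i, (X - C (α i)) : ℝ[X]).Monic := monic_prod_of_monic _ _ fun i _ => monic_X_sub_C _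
  have hPn : (∏ i, (X - C (α i)) : ℝ[X]).natDegree = m := by
    rw [natDegree_prod_of_monic _ _ fun i _ => monic_X_sub_C _]
    simp
  have e1 : ((C μ * X) ^ m : ℝ[X]) = C (μ ^ m) * X ^ m := by rw [mul_pow, C_pow]
  have e2 : (C B ^ m : ℝ[X]) = C (B ^ m) := by rw [C_pow]
  have hc : ((C μ * X) ^ m - C B ^ m * ∏ i, (X - C (α i)) : ℝ[X]).coeff m = μ ^ m - B ^ m := by
    rw [e1, e2, coeff_sub, coeff_C_mul, coeff_C_mul, coeff_X_pow, if_pos rfl]
    have h1 : (∏ i, (X - C (α i)) : ℝ[X]).coeff m = 1 := by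
      have h2 := hP.coeff_natDegree
      rwa [hPn] at h2
    rw [h1, mul_one, mul_one]
  have hle : ((C μ * X) ^ m - C B ^ m * ∏ i, (X - C (α i)) : ℝ[X]).natDegree ≤ m := by
    rw [e1, e2]
    refine (natDegree_sub_le _ _).trans (max_le ?_ ?_)
    · exact (natDegree_C_mul_X_pow_le _ _)
    · exact (natDegree_C_mul_le _ _).trans hPn.le
  constructor
  · intro h0
    rw [h0, coeff_zero] at hc
    exact h hc.symm
  · exact le_antisymm hle (le_natDegree_of_ne_zero (by rw [hc]; exact h))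

/-- the data of the limit equation: for all large `s` outside a finite set -/
lemma exists_s (m n q : ℕ) (hm : 2 ≤ m) (hme : Even m) (hn : Even n) (α : Fin m → ℝ)
    (hα : ∏ i, (0 - α i) < 0) (A1 H1 : ℝ[X]) (B : ℝ)
    (hA1 : A1 = ∏ l : Fin n, (X - C (((l : ℕ) : ℝ) + 1)))
    (hB : B = ∏ l : Fin n, (-(((l : ℕ) : ℝ) + 1)))
    (hH1 : H1.Monic) (hH1n : H1.natDegree = 2 * q) (hqn : 2 * q < n)
    (hH1p : ∀ x : ℝ, 1 ≤ H1.eval x)
    (hHs : ∀ z : ℂ, aeval z H1 = 0 → aeval z (derivative H1) ≠ 0) :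
    ∃ s : ℝ, 0 < s ∧ 0 < B ∧ (∀ z : ℂ, aeval z ((A1 + C s * H1) ^ m - A1 ^ m) = 0 →
        aeval z (derivative ((A1 + C s * H1) ^ m - A1 ^ m)) ≠ 0 ∧ z.im ≠ 0) ∧
      (∀ z : ℂ, aeval z ((C (B + s * H1.eval 0) * X) ^ m - C B ^ m * ∏ i, (X - C (α i))) = 0 →
        aeval z (derivative ((C (B + s * H1.eval 0) * X) ^ m - C B ^ m * ∏ i, (X - C (α i)))) ≠ 0 ∧
          z.im ≠ 0) := by
  have hm0 : m ≠ 0 := by omega
  have hA1m : A1.Monic := by rw [hA1]; exact monic_prod_of_monic _ _ fun i _ => monic_X_sub_C _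
  have hA1n : A1.natDegree = n := by
    rw [hA1, natDegree_prod_of_monic _ _ fun i _ => monic_X_sub_C _]
    simp only [natDegree_X_sub_C]
    simp
  have hB0 : 0 < B := by
    rw [hB, even_int hn]
    exact Finset.prod_pos fun l _ => by positivity
  have hc0 : 0 < H1.eval 0 := lt_of_lt_of_le one_pos (hH1p 0)
  have hre : ∀ (P : ℝ[X]) (x : ℝ), aeval (x : ℂ) P = ((P.eval x : ℝ) : ℂ) := by
    intro P x
    have h2 := aeval_algebraMap_apply_eq_algebraMap_eval (A := ℂ) x P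
    simpa using h2
  have hrz : ∀ (P : ℝ[X]) (z : ℂ), z.im = 0 → aeval z P = 0 → P.eval z.re = 0 := by
    intro P z hz h
    have h1 : z = (z.re : ℂ) := Complex.ext (by simp) (by simp [hz])
    rw [h1, hre] at h
    exact_mod_cast h
  have hcop : ∀ z : ℂ, aeval z A1 = 0 → aeval z H1 ≠ 0 := by
    intro z hz h
    rw [hA1, map_prod] at hz
    obtain ⟨l, -, hl⟩ := Finset.prod_eq_zero_iff.1 hz
    simp only [map_sub, aeval_X, aeval_C, Complex.coe_algebraMap] at hl
    have h1 : z.im = 0 := by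
      rw [sub_eq_zero.1 hl, Complex.ofReal_im]
    have h2 := hrz H1 z h1 h
    have h3 := hH1p z.re
    linarith
  have hW : A1 * derivative H1 - derivative A1 * H1 ≠ 0 := by
    intro h
    have hA10 : A1 ≠ 0 := hA1m.ne_zero
    have hH10 : H1 ≠ 0 := hH1.ne_zero
    have hn0 : 0 < n := by omega
    -- the zero `1` of `A1`
    have h1 : A1.eval 1 = 0 := by
      rw [hA1, eval_prod]
      refine Finset.prod_eq_zero (Finset.mem_univ ⟨0, hn0⟩) ?_
      simp
    have h2 : (derivative A1).eval 1 ≠ 0 := by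
      have hsep : A1.Separable := by
        rw [hA1, separable_prod_X_sub_C_iff]
        intro l l' hl
        have h3 : ((l : ℕ) : ℝ) = ((l' : ℕ) : ℝ) := by linarith
        exact Fin.ext (by exact_mod_cast h3)
      have h4 := hsep.aeval_derivative_ne_zero (x := (1 : ℝ)) (by rw [coe_aeval_eq_eval]; exact h1)
      rw [coe_aeval_eq_eval] at h4
      exact h4
    have h3 := congrArg (eval 1) h
    simp only [eval_sub, eval_mul, h1, zero_mul, zero_sub, eval_zero, neg_eq_zero] at h3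
    rcases mul_eq_zero.1 h3 with h4 | h4
    · exact h2 h4
    · have h5 := hH1p 1
      linarith
  have hP0 : (∏ i, (X - C (α i)) : ℝ[X]).eval 0 ≠ 0 := by
    rw [eval_prod]
    simp only [eval_sub, eval_X, eval_C]
    exact hα.ne
  have F1 := simple1 m hm A1 H1 hcop hHs hW
  have F2 := simple2 m (by omega) (∏ i, (X - C (α i))) B (H1.eval 0) hB0.ne' hc0.ne' hP0
  have E1 : ∀ᶠ s : ℝ in atTop, s ∉ {s : ℝ | s ≠ 0 ∧ ∃ z : ℂ, aeval z ((A1 + C s * H1) ^ m - A1 ^ m) = 0 ∧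
      aeval z (derivative ((A1 + C s * H1) ^ m - A1 ^ m)) = 0} := by
    obtain ⟨M, hM⟩ := F1.bddAbove
    filter_upwards [eventually_gt_atTop M] with s hs h
    exact absurd (hM h) (not_le.2 hs)
  have E2 : ∀ᶠ s : ℝ in atTop, s ∉ {s : ℝ | ∃ z : ℂ, aeval z ((C (B + s * H1.eval 0) * X) ^ m -
      C B ^ m * ∏ i, (X - C (α i))) = 0 ∧
      aeval z (derivative ((C (B + s * H1.eval 0) * X) ^ m - C B ^ m * ∏ i, (X - C (α i)))) = 0} := by
    obtain ⟨M, hM⟩ := F2.bddAbove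
    filter_upwards [eventually_gt_atTop M] with s hs h
    exact absurd (hM h) (not_le.2 hs)
  have E3 := noreal2 m hme hm0 α B (H1.eval 0) hB0 hc0 hα
  obtain ⟨s, hs1, hs2, hs3, hs4, hs5⟩ := (E1.and (E2.and (E3.and
    ((eventually_gt_atTop 0).and (eventually_gt_atTop (2 * (n : ℝ) ^ n)))))).exists
  refine ⟨s, hs4, hB0, fun z hz => ⟨fun h => hs1 ⟨hs4.ne', z, hz, h⟩, fun h => ?_⟩,
    fun z hz => ⟨fun h => hs2 ⟨z, hz, h⟩, fun h => ?_⟩⟩
  · have h1 := hrz _ z h hz
    simp only [eval_sub, eval_pow, eval_add, eval_mul, eval_C] at h1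
    refine noreal1 m hme hm0 (A1.eval z.re) (H1.eval z.re) s ((n : ℝ) ^ n) ?_ (hH1p _) hs4 hs5 h1
    rw [hA1, eval_prod]
    simp only [eval_sub, eval_X, eval_C]
    exact A1_lower n hn z.re
  · have h1 := hrz _ z h hz
    simp only [eval_sub, eval_pow, eval_mul, eval_C, eval_X, eval_prod] at h1
    exact hs3 z.re h1

theorem t_SHC : S_PL → S_GM → S_SHC := by
  intro hPL hGM m e j hm hme heo hjo hje
  obtain ⟨n2, hn2⟩ := heo
  obtain ⟨q, hqj⟩ := hjo
  obtain ⟨n, hn⟩ : ∃ n, n = 2 * n2 := ⟨_, rfl⟩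
  obtain rfl : e = n + 1 := by omega
  have hne : Even n := ⟨n2, by omega⟩
  have hqn : 2 * q < n := by omega
  obtain ⟨m', rfl⟩ : ∃ m', m = m' + 1 := ⟨m - 1, by omega⟩
  have hm'1 : 1 ≤ m' := by omega
  -- the polynomials
  set K : ℚ[X] := hq 0 0 q with hK
  have hKm : K.Monic := hq_monic 0 0 q
  have hKn : K.natDegree = 2 * q := by rw [hK, hq_deg, zero_add]
  set H1 : ℝ[X] := K.map (algebraMap ℚ ℝ) with hH1
  have hH1m : H1.Monic := hKm.map _
  have hH1n : H1.natDegree = 2 * q := by rw [hH1, hKm.natDegree_map, hKn]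
  have hH1p : ∀ x : ℝ, 1 ≤ H1.eval x := by
    intro x
    have h1 : H1.eval x = ∏ i : Fin q, (x ^ 2 + (((i : ℕ) : ℝ) + 1) ^ 2) := by
      rw [hH1, hK, hq]
      simp [Polynomial.map_prod, eval_prod]
    rw [h1]
    have h3 : (1 : ℝ) = ∏ i : Fin q, (1 : ℝ) := by simp
    rw [h3]
    refine Finset.prod_le_prod (fun _ _ => zero_le_one) fun i _ => ?_
    have h2 : (0 : ℝ) ≤ ((i : ℕ) : ℝ) := Nat.cast_nonneg _
    nlinarith [sq_nonneg x]
  have hH1s : ∀ z : ℂ, aeval z H1 = 0 → aeval z (derivative H1) ≠ 0 := by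
    intro z hz
    rw [hH1, aeval_map_algebraMap] at hz
    rw [hH1, derivative_map, aeval_map_algebraMap]
    have h1 : (K.map (algebraMap ℚ ℂ)).eval z = 0 := by rw [eval_map_algebraMap]; exact hz
    rw [hK, hq_map, eval_prod] at h1
    obtain ⟨i, -, hi⟩ := Finset.prod_eq_zero_iff.1 h1
    rw [eval_sub, eval_X, eval_C] at hi
    rw [sub_eq_zero.1 hi]
    exact (hq_root 0 0 q i).2
  obtain ⟨hc, rc, hGr⟩ := hGM (m' + 1) (n + 1) (fun l => ((l : ℕ) : ℚ)) (fun i => al m' i.1) hm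
    (fun l => al_sum m')
  set g : ℚ → ℚ[X] := fun ε => ∏ l : Fin (n + 1), (X - C (((l : ℕ) : ℚ))) +
    C (ε ^ 2) * ∑ l : Fin (n + 1), C ((hc l).eval ε) * X ^ (l : ℕ) with hg
  set R : ℚ → ℚ[X] := fun ε => ∑ l : Fin ((m' + 1 - 1) * (n + 1)), C ((rc l).eval ε) * X ^ (l : ℕ)
    with hRdef
  have hA : (∏ l : Fin (n + 1), (X - C (((l : ℕ) : ℚ))) : ℚ[X]).Monic :=
    monic_prod_of_monic _ _ fun l _ => monic_X_sub_C _
  have hAn : (∏ l : Fin (n + 1), (X - C (((l : ℕ) : ℚ))) : ℚ[X]).natDegree = n + 1 := by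
    rw [natDegree_prod_of_monic _ _ fun l _ => monic_X_sub_C _]
    simp only [natDegree_X_sub_C]
    simp
  have hgmon : ∀ ε, (g ε).Monic ∧ (g ε).natDegree = n + 1 := by
    intro ε
    have h1 : (C (ε ^ 2) * ∑ l : Fin (n + 1), C ((hc l).eval ε) * X ^ (l : ℕ) : ℚ[X]).degree <
        (∏ l : Fin (n + 1), (X - C (((l : ℕ) : ℚ))) : ℚ[X]).degree := by
      rw [degree_eq_natDegree hA.ne_zero, hAn]
      rw [← smul_eq_C_mul]
      exact (degree_smul_le _ _).trans_lt (degree_sum_fin_lt _)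
    refine ⟨hA.add_of_left h1, ?_⟩
    rw [hg]
    simp only
    rw [natDegree_add_eq_left_of_degree_lt h1, hAn]
  have hRdeg : ∀ ε, (R ε).degree < ((m' + 1 - 1) * (n + 1) : ℕ) := fun ε => degree_sum_fin_lt _
  -- the small parameter
  set ε : ℕ → ℚ := fun k => 1 / ((k : ℚ) + 1) with hε
  have hε0 : ∀ k, 0 < ε k := fun k => by simp only [hε]; positivity
  have hεR : ∀ k, (0 : ℝ) < (ε k : ℝ) := fun k => by exact_mod_cast hε0 k
  have hεlim : Tendsto (fun k => (ε k : ℝ)) atTop (𝓝 0) := by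
    have h1 := tendsto_one_div_add_atTop_nhds_zero_nat (𝕜 := ℝ)
    refine h1.congr fun k => ?_
    simp [hε]
  set b : ℚ → Fin (m' + 1) × Fin (n + 1) → ℚ := fun ε i => ((i.2 : ℕ) : ℚ) + ε * al m' i.1 with hb
  have hbinj : ∀ᶠ k in atTop, Function.Injective (b (ε k)) := by
    have h1 : ∀ᶠ k in atTop, ∀ i j : Fin (m' + 1) × Fin (n + 1), i ≠ j → b (ε k) i ≠ b (ε k) j := by
      rw [eventually_all]
      intro i
      rw [eventually_all]
      intro j
      by_cases hij : i = j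
      · exact Eventually.of_forall fun k h => absurd hij h
      by_cases h2 : i.2 = j.2
      · refine Eventually.of_forall fun k _ h3 => hij ?_
        simp only [hb] at h3
        rw [h2] at h3
        have h4 := mul_left_cancel₀ (hε0 k).ne' (add_left_cancel h3)
        exact Prod.ext (al_inj m' h4) h2
      · have h3 : Tendsto (fun k => (((i.2 : ℕ) : ℝ)) + ε k * ((al m' i.1 : ℚ) : ℝ) -
            ((((j.2 : ℕ) : ℝ)) + ε k * ((al m' j.1 : ℚ) : ℝ))) atTop
            (𝓝 ((((i.2 : ℕ) : ℝ)) + 0 * ((al m' i.1 : ℚ) : ℝ) -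
              ((((j.2 : ℕ) : ℝ)) + 0 * ((al m' j.1 : ℚ) : ℝ)))) :=
          (tendsto_const_nhds.add (hεlim.mul_const _)).sub
            (tendsto_const_nhds.add (hεlim.mul_const _))
        have h4 : (((i.2 : ℕ) : ℝ)) + 0 * ((al m' i.1 : ℚ) : ℝ) -
              ((((j.2 : ℕ) : ℝ)) + 0 * ((al m' j.1 : ℚ) : ℝ)) ≠ 0 := by
          rw [zero_mul, zero_mul, add_zero, add_zero]
          refine sub_ne_zero.2 fun h => h2 (Fin.ext ?_)
          exact_mod_cast h
        filter_upwards [h3.eventually_ne h4] with k hk _ h5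
        apply hk
        simp only [hb] at h5
        rw [sub_eq_zero]
        exact_mod_cast h5
    filter_upwards [h1] with k hk i j hij
    by_contra hne
    exact hk i j hne hij
  set A1 : ℝ[X] := ∏ l : Fin n, (X - C (((l : ℕ) : ℝ) + 1)) with hA1
  set B : ℝ := ∏ l : Fin n, (-(((l : ℕ) : ℝ) + 1)) with hB
  obtain ⟨s, hs, hB0, hz1, hz2⟩ := exists_s (m' + 1) n q hm hme hne (fun i => ((al m' i : ℚ) : ℝ))
    (al_prod m' hm'1) A1 H1 B hA1 hB hH1m hH1n hqn hH1p hH1s
  have hA1m : A1.Monic := by rw [hA1]; exact monic_prod_of_monic _ _ fun i _ => monic_X_sub_C _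
  have hA1n : A1.natDegree = n := by
    rw [hA1, natDegree_prod_of_monic _ _ fun i _ => monic_X_sub_C _]
    simp only [natDegree_X_sub_C]
    simp
  have hXA : ∏ l : Fin (n + 1), (X - C (((l : ℕ) : ℝ))) = X * A1 := by
    rw [Fin.prod_univ_succ]
    simp [hA1]
  -- the zeros away from 0
  obtain ⟨hd1, hd2⟩ := deg_aux (m' + 1) n (2 * q) (by omega) A1 H1 0 s hs.ne' hqn hA1m hA1n hH1m hH1n
    (by rw [degree_zero]; exact WithBot.bot_lt_coe _)
  rw [add_zero] at hd1 hd2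
  rw [Nat.add_sub_cancel] at hd2
  obtain ⟨z1, hz1i, hz1z⟩ := zeros_aux _ _ hd1 hd2 fun z hz => (hz1 z hz).1
  -- the zeros near 0
  have hμ : (B + s * H1.eval 0) ^ (m' + 1) - B ^ (m' + 1) ≠ 0 := by
    have h1 : B < B + s * H1.eval 0 := by
      have h2 : 0 < H1.eval 0 := lt_of_lt_of_le one_pos (hH1p 0)
      have := mul_pos hs h2
      linarith
    exact (sub_pos.2 (pow_lt_pow_left₀ h1 hB0.le (Nat.succ_ne_zero m'))).ne'
  obtain ⟨hd3, hd4⟩ := deg2 (m' + 1) (fun i => ((al m' i : ℚ) : ℝ)) (B + s * H1.eval 0) B hμ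
  obtain ⟨z2, hz2i, hz2z⟩ := zeros_aux _ _ hd3 hd4 fun z hz => (hz2 z hz).1
  set U : ℕ → ℝ[X] := fun k => ∑ l : Fin (n + 1), C (((hc l).eval (ε k) : ℚ) : ℝ) * X ^ (l : ℕ) with hU
  set P : ℕ → ℝ[X] := fun k => (∏ l : Fin (n + 1), (X - C (((l : ℕ) : ℝ))) + C ((ε k : ℝ) ^ 2) *
      (∑ l : Fin (n + 1), C (((hc l).eval (ε k) : ℚ) : ℝ) * X ^ (l : ℕ)) + C s * (X * H1)) ^ (m' + 1) -
    ∏ i : Fin (m' + 1) × Fin (n + 1), (X - C (((i.2 : ℕ) : ℝ) + (ε k : ℝ) * ((al m' i.1 : ℚ) : ℝ)))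
    with hP
  have hgR : ∀ k, (g (ε k)).map (algebraMap ℚ ℝ) = ∏ l : Fin (n + 1), (X - C (((l : ℕ) : ℝ))) +
      C ((ε k : ℝ) ^ 2) * (∑ l : Fin (n + 1), C (((hc l).eval (ε k) : ℚ) : ℝ) * X ^ (l : ℕ)) := by
    intro k
    simp only [hg]
    simp [Polynomial.map_prod, Polynomial.map_sum]
  have hXK : (X * K).map (algebraMap ℚ ℝ) = X * H1 := by
    rw [Polynomial.map_mul, map_X]
  have hPR : ∀ k, P k = ((g (ε k)).map (algebraMap ℚ ℝ) + C s * (X * K).map (algebraMap ℚ ℝ)) ^ (m' + 1) -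
      ((g (ε k)) ^ (m' + 1) + R (ε k)).map (algebraMap ℚ ℝ) := by
    intro k
    simp only [hP]
    rw [← hgR k, hXK]
    congr 1
    have h1 := hGr (ε k)
    have h2 : (g (ε k)) ^ (m' + 1) + R (ε k) =
        ∏ i : Fin (m' + 1) × Fin (n + 1), (X - C (((i.2 : ℕ) : ℚ) + ε k * al m' i.1)) := h1.symm
    rw [h2, Polynomial.map_prod]
    refine Finset.prod_congr rfl fun i _ => ?_
    simp
  have key := hPL (Fin (m' * n + 2 * q) ⊕ Fin (m' + 1)) P (fun _ _ => 0)
    (Sum.elim (fun _ _ => 1) (fun _ k => (ε k : ℝ)))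
    (Sum.elim (fun _ _ => 1) (fun _ k => ((ε k : ℝ) ^ (m' + 1))⁻¹))
    (Sum.elim (fun _ => (∏ l : Fin (n + 1), (X - C (((l : ℕ) : ℝ))) + C s * (X * H1)) ^ (m' + 1) -
        (∏ l : Fin (n + 1), (X - C (((l : ℕ) : ℝ)))) ^ (m' + 1))
      (fun _ => (C (B + s * H1.eval 0) * X) ^ (m' + 1) -
        C B ^ (m' + 1) * ∏ i, (X - C ((al m' i : ℚ) : ℝ))))
    (Sum.elim z1 z2) ?_ ?_ ?_ ?_ ?_
  · obtain ⟨k, ⟨⟨w, hwi, hw⟩, -⟩, hk⟩ := (key.and hbinj).exists
    have hcard : Fintype.card (Fin ((m' + 1 - 1) * (n + 1) + j)) =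
        Fintype.card (Fin (m' * n + 2 * q) ⊕ Fin (m' + 1)) := by
      simp only [Fintype.card_fin, Fintype.card_sum]
      rw [Nat.add_sub_cancel, hqj]
      ring
    obtain ⟨E⟩ : Nonempty (Fin ((m' + 1 - 1) * (n + 1) + j) ≃ Fin (m' * n + 2 * q) ⊕ Fin (m' + 1)) :=
      ⟨Fintype.equivOfCardEq hcard⟩
    have hzim : ∀ i, (Sum.elim z1 z2 i).im ≠ 0 := by
      rintro (i | i)
      · exact (hz1 _ (hz1z i)).2
      · exact (hz2 _ (hz2z i)).2
    refine ⟨b (ε k), g (ε k), R (ε k), X * K, s, hk, (hgmon _).1, (hgmon _).2, monic_X.mul hKm, ?_,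
      hRdeg _, hGr _, hs, fun i => w (E i), hwi.comp E.injective, fun i => ?_, ?_⟩
    · rw [monic_X.natDegree_mul hKm, natDegree_X, hKn, hqj]
      ring
    · rw [← hPR k]
      exact ⟨(hw (E i)).1, (hw (E i)).2.1⟩
    · have h1 : {i : Fin ((m' + 1 - 1) * (n + 1) + j) | (w (E i)).im = 0} = ∅ := by
        ext i
        simp only [Set.mem_ofPred_eq, Set.mem_empty_iff_false, iff_false]
        intro h
        exact hzim (E i) ((hw (E i)).2.2.1 h)
      rw [h1, Set.ncard_empty]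
  · intro k
    have h1 := deg_aux (m' + 1) (n + 1) (2 * q + 1) (by omega) ((g (ε k)).map (algebraMap ℚ ℝ)) (X * H1)
      ((R (ε k)).map (algebraMap ℚ ℝ)) s hs.ne' (by omega) ((hgmon _).1.map _)
      (by rw [(hgmon _).1.natDegree_map, (hgmon _).2]) (monic_X.mul hH1m)
      (by rw [monic_X.natDegree_mul hH1m, natDegree_X, hH1n]; ring)
      ((degree_map_le).trans_lt (hRdeg _))
    have h2 : P k = ((g (ε k)).map (algebraMap ℚ ℝ) + C s * (X * H1)) ^ (m' + 1) -
        (((g (ε k)).map (algebraMap ℚ ℝ)) ^ (m' + 1) + (R (ε k)).map (algebraMap ℚ ℝ)) := by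
      have h3 : ((g (ε k)) ^ (m' + 1) + R (ε k)).map (algebraMap ℚ ℝ) =
          ((g (ε k)).map (algebraMap ℚ ℝ)) ^ (m' + 1) + (R (ε k)).map (algebraMap ℚ ℝ) := by
        rw [Polynomial.map_add, Polynomial.map_pow]
      rw [hPR k, hXK, h3]
    rw [h2]
    refine ⟨h1.1, h1.2.le.trans (le_of_eq ?_)⟩
    simp only [Fintype.card_fin, Fintype.card_sum]
    rw [Nat.add_sub_cancel]
    ring
  · rintro (i | i) k
    · exact one_ne_zero
    · exact (hεR k).ne'
  · rintro (i | i) d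
    · have cU : CT U (∑ l : Fin (n + 1), C (((hc l).eval 0 : ℚ) : ℝ) * X ^ (l : ℕ)) :=
        CT.sum _ fun l _ => (CT.cc (pol_lim (hc l) ε hεlim)).mul (CT.const _)
      have h1 := lim1 (m := m' + 1) (e := n + 1) (fun l => ((l : ℕ) : ℝ))
        (fun i => ((al m' i.1 : ℚ) : ℝ)) (fun k => (ε k : ℝ)) hεlim U _ cU (C s * (X * H1)) d
      simp only [Sum.elim_inl]
      refine h1.congr fun k => ?_
      simp only [one_mul, C_0, zero_add, C_1, comp_X, hP, hU]
    · simp only [Sum.elim_inr]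
      exact lim2 (m := m' + 1) (n := n) (fun i => ((al m' i.1 : ℚ) : ℝ)) (fun k => (ε k : ℝ))
        (fun k => (hεR k).ne') hεlim (fun l k => (((hc l).eval (ε k) : ℚ) : ℝ)) _
        (fun l => pol_lim (hc l) ε hεlim) H1 s B hB d
  · rintro (i | i)
    · simp only [Sum.elim_inl]
      have h1 : (∏ l : Fin (n + 1), (X - C (((l : ℕ) : ℝ))) + C s * (X * H1)) ^ (m' + 1) -
        (∏ l : Fin (n + 1), (X - C (((l : ℕ) : ℝ)))) ^ (m' + 1) =
          X ^ (m' + 1) * ((A1 + C s * H1) ^ (m' + 1) - A1 ^ (m' + 1)) := by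
        rw [hXA, mul_sub, ← mul_pow, ← mul_pow]
        congr 2
        ring
      rw [h1]
      have h2 := hz1z i
      obtain ⟨h3, h4⟩ := hz1 _ h2
      have h5 : z1 i ≠ 0 := by
        intro h
        rw [h] at h4
        exact h4 Complex.zero_im
      constructor
      · rw [_root_.map_mul, h2, mul_zero]
      · rw [derivative_mul, map_add, _root_.map_mul, _root_.map_mul, h2, mul_zero, zero_add]
        refine mul_ne_zero ?_ h3
        rw [map_pow, aeval_X]
        exact pow_ne_zero _ h5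
    · simp only [Sum.elim_inr]
      exact ⟨hz2z i, (hz2 _ (hz2z i)).1⟩
  · have hεC : Tendsto (fun k => ((ε k : ℝ) : ℂ)) atTop (𝓝 0) := by
      have h0 := (Complex.continuous_ofReal.tendsto 0).comp hεlim
      rw [Complex.ofReal_zero] at h0
      exact h0
    have hεC0 : ∀ k, ((ε k : ℝ) : ℂ) ≠ 0 := fun k => by exact_mod_cast (hεR k).ne'
    have hz10 : ∀ i, z1 i ≠ 0 := by
      intro i h
      have h4 := (hz1 _ (hz1z i)).2
      rw [h] at h4
      exact h4 Complex.zero_im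
    have hmix : ∀ (i : Fin (m' * n + 2 * q)) (j : Fin (m' + 1)) (ζ ξ : ℕ → ℂ), Tendsto ζ atTop (𝓝 (z1 i)) →
        Tendsto ξ atTop (𝓝 (z2 j)) → ∀ᶠ k in atTop, ζ k ≠ ((ε k : ℝ) : ℂ) * ξ k := by
      intro i j ζ ξ hζ hξ
      have h1 := hζ.sub (hεC.mul hξ)
      rw [zero_mul, sub_zero] at h1
      filter_upwards [h1.eventually_ne (hz10 i)] with k hk h
      exact hk (sub_eq_zero.2 h)
    rintro (i | i) (j' | j') hij ζ ξ hζ hξ
    · have h1 : z1 i ≠ z1 j' := fun h => hij (by rw [hz1i h])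
      filter_upwards [(hζ.sub hξ).eventually_ne (sub_ne_zero.2 h1)] with k hk h
      apply hk
      simp only [Sum.elim_inl, Complex.ofReal_zero, zero_add, Complex.ofReal_one, one_mul] at h
      exact sub_eq_zero.2 h
    · filter_upwards [hmix i j' ζ ξ hζ hξ] with k hk h
      apply hk
      simpa only [Sum.elim_inl, Sum.elim_inr, Complex.ofReal_zero, zero_add, Complex.ofReal_one,
        one_mul] using h
    · filter_upwards [hmix j' i ξ ζ hξ hζ] with k hk h
      apply hk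
      simpa only [Sum.elim_inl, Sum.elim_inr, Complex.ofReal_zero, zero_add, Complex.ofReal_one,
        one_mul] using h.symm
    · have h1 : z2 i ≠ z2 j' := fun h => hij (by rw [hz2i h])
      filter_upwards [(hζ.sub hξ).eventually_ne (sub_ne_zero.2 h1)] with k hk h
      apply hk
      simp only [Sum.elim_inr, Complex.ofReal_zero, zero_add] at h
      exact sub_eq_zero.2 (mul_left_cancel₀ (hεC0 k) h)

end Pool.Agent.J4H3.LV
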